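import Pool.Agent.H90.SF.Emb
import Pool.Agent.H90.SF.Kbz
import Pool.Agent.H82.NS.PlA
import Pool.Agent.H85.SF.Def
import Pool.Agent.H12.GN.Pls

/-! # [SF2 K2] THEOREM SF, phase 2: `AtInf` gives the function `g`

`prim_res`: a primitive element `g₁` of the residue field of a place `O` at infinity, `Q` its minimal polynomial.
`ginf`: `x, y` generate `L`, `G(x,y) = 0`, `O` a place at infinity whose residue field has a real embedding; `AtInf q G` gives `g ∈ O`
with `q(g) ∈ m`, and `q` has a real zero. -/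

set_option autoImplicit false

namespace Pool.Agent.H90.SF2

open Pool.Agent.H90.SF Pool.Agent.H82.NS Pool.Agent.H12.ON Pool.Agent.H12.OG IntermediateField

/-- a primitive element of the residue field -/
theorem prim_res {k L : Type} [Field k] [CharZero k] [Field L] [Algebra k L] {t : L} {O : ValuationSubring L}
    (ff : FF k t) (inf : Inf k t O) :
    ∃ (g₁ : L) (Q : Polynomial k), g₁ ∈ O ∧ Irreducible Q ∧
      Polynomial.aeval g₁ Q ∈ O.nonunits ∧
      ∀ a ∈ O, ∃ A : Polynomial k, a - Polynomial.aeval g₁ A ∈ O.nonunits := by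
  obtain ⟨π, e, π0, πm, huni, e1, x1, x2⟩ := Pool.Agent.H85.LK.unif ff inf
  have h0m : (0 : L) ∈ O.nonunits := by
    rw [ValuationSubring.mem_nonunits_iff, map_zero]
    exact zero_lt_one
  obtain ⟨s, z, zO, s1, zi, es, zs⟩ := kbz ff inf π0 πm e1 x1 x2 (Polynomial.irreducible_X (R := k)) O.zero_mem
    (by rw [Polynomial.aeval_X]; exact h0m)
  have hO : ∀ c : k, algebraMap k L c ∈ O := inf.base
  letI : Algebra k O := ((algebraMap k L).codRestrict O.toSubring hO).toAlgebra
  haveI : IsScalarTower k O L := IsScalarTower.of_algebraMap_eq fun c => rfl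
  have hres : ∀ a : O, IsLocalRing.residue O a = 0 ↔ (a : L) ∈ O.nonunits := fun a => by
    rw [IsLocalRing.residue_eq_zero_iff, ← ValuationSubring.coe_mem_nonunits_iff]
  have hcoe : ∀ (a : O) (A : Polynomial k), ((Polynomial.aeval a A : O) : L) = Polynomial.aeval (a : L) A :=
    fun a A => (Polynomial.aeval_algebraMap_apply L a A).symm
  have hrae : ∀ (a : O) (A : Polynomial k), IsLocalRing.residue O (Polynomial.aeval a A) =
      Polynomial.aeval (IsLocalRing.residue O a) A :=
    fun a A => (Polynomial.aeval_algebraMap_apply (IsLocalRing.ResidueField O) a A).symm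
  obtain ⟨zO', hzO⟩ : ∃ zO' : Fin s → O, ∀ i, (zO' i : L) = z i := ⟨fun i => ⟨z i, zO i⟩, fun i => rfl⟩
  have hsp : ⊤ ≤ Submodule.span k (Set.range fun i => IsLocalRing.residue O (zO' i)) := by
    intro y _
    obtain ⟨a, rfl⟩ := IsLocalRing.residue_surjective y
    obtain ⟨A, hA⟩ := zs a a.2
    have h1 : IsLocalRing.residue O a = ∑ i, ((A i).coeff 0) • IsLocalRing.residue O (zO' i) := by
      have h2 : (a : L) - ∑ i, Polynomial.aeval (0 : L) (A i) * z i =
          ((a - ∑ i, (A i).coeff 0 • zO' i : O) : L) := by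
        push_cast
        congr 1
        refine Finset.sum_congr rfl fun i _ => ?_
        rw [← hzO, ← Polynomial.coeff_zero_eq_aeval_zero', Algebra.smul_def]
        rfl
      rw [h2, ← hres, map_sub, sub_eq_zero, map_sum] at hA
      rw [hA]
      refine Finset.sum_congr rfl fun i _ => ?_
      rw [Algebra.smul_def, Algebra.smul_def, map_mul]
      rfl
    rw [h1]
    exact Submodule.sum_mem _ fun i _ => Submodule.smul_mem _ _ (Submodule.subset_span ⟨i, rfl⟩)
  haveI : FiniteDimensional k (IsLocalRing.ResidueField O) :=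
    Module.finite_def.2 (Submodule.fg_def.2 ⟨_, Set.finite_range _, top_le_iff.1 hsp⟩)
  obtain ⟨α, hα⟩ := Field.exists_primitive_element k (IsLocalRing.ResidueField O)
  obtain ⟨a1, rfl⟩ := IsLocalRing.residue_surjective α
  have hint : IsIntegral k (IsLocalRing.residue O a1) := IsIntegral.of_finite k _
  refine ⟨a1, minpoly k (IsLocalRing.residue O a1), a1.2, minpoly.irreducible hint, ?_, ?_⟩
  · rw [← hcoe, ← hres, hrae]
    exact minpoly.aeval _ _
  · intro a ha
    have h1 : IsLocalRing.residue O ⟨a, ha⟩ ∈ k⟮IsLocalRing.residue O a1⟯ := by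
      rw [hα]; exact IntermediateField.mem_top
    rw [← IntermediateField.mem_toSubalgebra,
      IntermediateField.adjoin_simple_toSubalgebra_of_isAlgebraic hint.isAlgebraic,
      Algebra.adjoin_singleton_eq_range_aeval] at h1
    obtain ⟨A, hA⟩ := h1
    refine ⟨A, ?_⟩
    have h2 : a - Polynomial.aeval (a1 : L) A = (((⟨a, ha⟩ : O) - Polynomial.aeval a1 A : O) : L) := by
      push_cast
      rw [hcoe]
    rw [h2, ← hres, map_sub, hrae, sub_eq_zero]
    exact hA.symm

private theorem pole_range {F : Type} [Field F] {f : LaurentSeries F} (h : Pole f 0) :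
    f ∈ (HahnSeries.ofPowerSeries ℤ F).range := by
  refine ⟨PowerSeries.mk fun n => f.coeff n, ?_⟩
  ext i
  rw [PowerSeries.coeff_coe]
  split_ifs with hi
  · exact (h i (by omega)).symm
  · rw [PowerSeries.coeff_mk]
    congr 1
    omega

private theorem range_pole {F : Type} [Field F] {f : LaurentSeries F}
    (h : f ∈ (HahnSeries.ofPowerSeries ℤ F).range) : Pole f 0 := by
  obtain ⟨p, rfl⟩ := h
  intro i hi
  rw [PowerSeries.coeff_coe, if_pos (by omega)]

theorem ginf {G : MvPolynomial (Fin 2) ℤ} {q : Polynomial ℤ} {L : Type} [Field L] [CharZero L] {x y t : L}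
    {O : ValuationSubring L} (ff : FF ℚ t) (hO : Inf ℚ t O)
    (hz : MvPolynomial.eval₂ (Int.castRingHom L) ![x, y] G = 0) (hxy : ¬ (x ∈ O ∧ y ∈ O))
    (ha : Pool.Agent.H85.SF.AtInf q G) (hr : Nonempty (IsLocalRing.ResidueField O →+* ℝ)) :
    (∃ g ∈ O, Polynomial.aeval g (q.map (Int.castRingHom ℚ)) ∈ O.nonunits) ∧
      ∃ al : ℝ, Polynomial.aeval al q = 0 := by
  obtain ⟨φ⟩ := hr
  obtain ⟨g₁, Q, hg1, hQ, hQg, hs⟩ := prim_res ff hO
  obtain ⟨π, e, π0, πm, huni, e1, x1, x2⟩ := Pool.Agent.H85.LK.unif ff hO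
  haveI hQf : Fact (Irreducible Q) := ⟨hQ⟩
  -- archimedean
  have hd : ∀ a : L, a ≠ 0 → ∃ n : ℕ, π ^ n / a ∈ O := by
    intro a ha
    obtain ⟨j, hj⟩ := pole_bdd ff hO a⁻¹
    obtain ⟨M, hM⟩ := rank_one ff hO πm j
    have hx0 : t ≠ 0 := fun h0 => hO.pole (by rw [h0]; exact O.zero_mem)
    refine ⟨M, ?_⟩
    have h1 := O.mul_mem _ _ hM hj
    have h2 : π ^ M * t ^ j * (a⁻¹ * t⁻¹ ^ j) = π ^ M / a := by
      rw [inv_pow]
      field_simp
    rwa [h2] at h1
  obtain ⟨E, hE1, hE2, -⟩ := emb1 (F := AdjoinRoot Q) hO.base π0 πm huni hd hQ hg1 hQg hs (β := AdjoinRoot.root Q)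
    (by rw [Polynomial.aeval_def]; exact AdjoinRoot.eval₂_root Q)
  -- the real embedding
  obtain ⟨f, hf⟩ : ∃ f : O →+* ℝ, f = φ.comp (IsLocalRing.residue O) := ⟨_, rfl⟩
  obtain ⟨ι, hι⟩ : ∃ ι : ℚ →+* O, ∀ c, ((ι c : O) : L) = algebraMap ℚ L c :=
    ⟨(algebraMap ℚ L).codRestrict O.toSubring hO.base, fun c => rfl⟩
  have hfm : ∀ a : O, (a : L) ∈ O.nonunits → f a = 0 := by
    intro a ha
    rw [hf, RingHom.comp_apply, (IsLocalRing.residue_eq_zero_iff a).2 (ValuationSubring.coe_mem_nonunits_iff.1 ha), map_zero]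
  have hroot : Q.eval₂ (algebraMap ℚ ℝ) (f ⟨g₁, hg1⟩) = 0 := by
    have h1 : algebraMap ℚ ℝ = f.comp ι := Subsingleton.elim _ _
    rw [h1, ← Polynomial.hom_eval₂]
    apply hfm
    have h2 := Polynomial.hom_eval₂ Q ι O.subtype ⟨g₁, hg1⟩
    have h3 : O.subtype.comp ι = algebraMap ℚ L := RingHom.ext fun c => hι c
    rw [h3] at h2
    show O.subtype (Polynomial.eval₂ ι ⟨g₁, hg1⟩ Q) ∈ O.nonunits
    rw [h2]
    exact hQg
  have hreal : Nonempty (AdjoinRoot Q →+* ℝ) := ⟨AdjoinRoot.lift (algebraMap ℚ ℝ) _ hroot⟩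
  have hz2 : MvPolynomial.eval₂ (Int.castRingHom (LaurentSeries (AdjoinRoot Q))) ![E x, E y] G = 0 := by
    have h1 := congrArg (E : L →+* LaurentSeries (AdjoinRoot Q)) hz
    rw [map_zero, MvPolynomial.hom_eval₂] at h1
    rw [← h1]
    congr 1
    · exact RingHom.ext_int _ _
    · funext i
      fin_cases i <;> rfl
  rcases ha (AdjoinRoot Q) hreal (E x) (E y) hz2 with h1 | ⟨z, hz3⟩
  · exact absurd ⟨(hE2 x).2 (range_pole h1.1), (hE2 y).2 (range_pole h1.2)⟩ hxy
  · constructor
    · obtain ⟨A, rfl⟩ := AdjoinRoot.mk_surjective z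
      refine ⟨Polynomial.aeval g₁ A, ?_, ?_⟩
      · rw [Polynomial.aeval_eq_sum_range]
        refine sum_mem fun i _ => ?_
        rw [Algebra.smul_def]
        exact mul_mem (hO.base _) (pow_mem hg1 _)
      · have h2 : AdjoinRoot.mk Q ((q.map (Int.castRingHom ℚ)).comp A) = 0 := by
          rw [← hz3]
          have h3 : (q.map (Int.castRingHom ℚ)).comp A = Polynomial.aeval A q := by
            rw [Polynomial.comp, Polynomial.eval₂_map, Polynomial.aeval_def]
            congr 1
          rw [h3, Polynomial.aeval_def, Polynomial.aeval_def, Polynomial.hom_eval₂]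
          congr 1
        rw [AdjoinRoot.mk_eq_zero] at h2
        obtain ⟨B, hB⟩ := h2
        have h4 : Polynomial.aeval (Polynomial.aeval g₁ A) (q.map (Int.castRingHom ℚ)) =
            Polynomial.aeval g₁ Q * Polynomial.aeval g₁ B := by
          rw [← Polynomial.aeval_comp, hB, map_mul]
        rw [h4]
        have hBO : Polynomial.aeval g₁ B ∈ O := by
          rw [Polynomial.aeval_eq_sum_range]
          refine sum_mem fun i _ => ?_
          rw [Algebra.smul_def]
          exact mul_mem (hO.base _) (pow_mem hg1 _)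
        rw [ValuationSubring.mem_nonunits_iff] at hQg ⊢
        rw [map_mul]
        calc O.valuation (Polynomial.aeval g₁ Q) * O.valuation (Polynomial.aeval g₁ B)
            ≤ O.valuation (Polynomial.aeval g₁ Q) * 1 := mul_le_mul' le_rfl ((O.valuation_le_one_iff _).2 hBO)
          _ = O.valuation (Polynomial.aeval g₁ Q) := mul_one _
          _ < 1 := hQg
    · obtain ⟨ψ⟩ := hreal
      refine ⟨ψ z, ?_⟩
      have h2 := congrArg ψ hz3
      rw [map_zero, Polynomial.aeval_def, Polynomial.hom_eval₂] at h2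
      rw [Polynomial.aeval_def, ← h2]
      congr 1
      exact RingHom.ext_int _ _

end Pool.Agent.H90.SF2
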